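import Pool.Agent.Helper68.SG2.GoalsT

/-!
# SH2-BNDX
-/

set_option autoImplicit false

namespace Pool.Agent.Helper31.SG2

open Pool.Agent.Helper29.BL Pool.Agent.Helper42.SG Pool.Agent.Helper68.SG2
open Height

theorem one_le_cst {K : Type} [Field K] (v : AbsoluteValue K ℝ) : 1 ≤ cst v 2 := by
  unfold cst
  split_ifs
  · exact le_rfl
  · norm_num

theorem keyf {K : Type} [Field K] (v : AbsoluteValue K ℝ) (x : K) (hx1 : x ≠ 1) :
    v (x - 1) * √(Mv v (x / (x - 1) ^ 2)) ≤ cst v 2 * max 1 (v x) := by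
  have h0 : 0 ≤ v (x - 1) := v.nonneg _
  have hm : 1 ≤ max 1 (v x) := le_max_left _ _
  have hc := one_le_cst v
  have hpos : 0 < v (x - 1) := v.pos (sub_ne_zero.2 hx1)
  unfold Mv
  rcases le_total (v (x / (x - 1) ^ 2)) 1 with h | h
  · rw [max_eq_left h, Real.sqrt_one, mul_one]
    unfold cst
    split_ifs with hna
    · rw [one_mul, sub_eq_add_neg]
      refine (hna x (-1)).trans ?_
      rw [v.map_neg, v.map_one, max_comm]
    · have h1 := v.add_le x (-1)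
      rw [v.map_neg, v.map_one, ← sub_eq_add_neg] at h1
      have h2 := le_max_right 1 (v x)
      linarith
  · rw [max_eq_right h]
    have h1 : v (x - 1) * √(v (x / (x - 1) ^ 2)) ≤ max 1 (v x) := by
      apply le_of_sq_le_sq _ (by positivity)
      rw [mul_pow, Real.sq_sqrt (v.nonneg _), map_div₀, map_pow,
        mul_div_cancel₀ _ (pow_ne_zero 2 hpos.ne')]
      have h2 := le_max_right 1 (v x)
      nlinarith
    refine h1.trans ?_
    exact le_mul_of_one_le_left (by positivity) hc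

theorem t_BNDX (hF : FRPS) : BNDX := by
  classical
  intro K _ T W n e ξ ψ ω σ _ X Ψ v r b' hb' hOn hPt hr hN
  obtain ⟨NF, -⟩ := hF K v σ r hr
  have hc := one_le_cst v
  have hb0 : 0 ≤ b' := by linarith
  have hbb : b' ≤ b' ^ 2 := by nlinarith
  -- the definitions
  obtain ⟨a, ha⟩ : ∃ a : ℕ → ℝ, ∀ h, a h = if T (h % 2) = true ∧ h < 2 * n then
    max (v (ξ h)) (v (ψ h)) else b' * Mv v (ξ h) := ⟨_, fun _ => rfl⟩
  obtain ⟨G, hG⟩ : ∃ G : ℕ → ℝ, ∀ h, G h = if T (h % 2) = true then √(Mv v (zeT T ξ h)) else 1 :=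
    ⟨_, fun _ => rfl⟩
  obtain ⟨L, hL⟩ : ∃ L : ℕ → ℝ, ∀ h, L h = if T (h % 2) = true then
    (if v (ξ h) < 1 then b' * max 1 (v (ξ (2 * n + h % 2)) * v (ψ h) ^ (4 ^ e (h / 2)))
      else b' * max (v (ξ (2 * n + h % 2))) (v (ξ h) ^ (4 ^ e (h / 2)))) else 1 :=
    ⟨_, fun _ => rfl⟩
  obtain ⟨lam, hlam⟩ : ∃ lam : ℕ → Bool, ∀ h, lam h = if T (h % 2) = true then
    decide (v (ξ h) < 1) else decide (1 < v (ω h)) := ⟨_, fun _ => rfl⟩
  have haT : ∀ h < 2 * n, T (h % 2) = true → a h = max (v (ξ h)) (v (ψ h)) := by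
    intro h hh hT
    rw [ha, if_pos ⟨hT, hh⟩]
  have haE : ∀ h, T (h % 2) = false → a h = b' * Mv v (ξ h) := by
    intro h hT
    rw [ha, if_neg]
    rintro ⟨h1, -⟩
    rw [hT] at h1
    exact absurd h1 (by decide)
  have haR : ∀ i, a (2 * n + i) = b' * Mv v (ξ (2 * n + i)) := by
    intro i
    rw [ha, if_neg]
    rintro ⟨-, h1⟩
    omega
  have hmod : ∀ h, (2 * n + h % 2) % 2 = h % 2 := by
    intro h
    omega
  have hltr : ∀ h, 2 * n + h % 2 < 2 * n + 2 := by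
    intro h
    omega
  have hM1 : ∀ x, 1 ≤ Mv v x := fun x => le_max_left _ _
  have hMv : ∀ x, v x ≤ Mv v x := fun x => le_max_right _ _
  -- facts on the multiplicative indices
  have hψ : ∀ h < 2 * n, T (h % 2) = true → 0 < v (ξ h) ∧ v (ψ h) = (v (ξ h))⁻¹ := by
    intro h hh hT
    obtain ⟨h1, -, h2⟩ := (hPt h (by omega)).1 hT
    refine ⟨v.pos h1, ?_⟩
    rw [h2, map_inv₀]
  have hge : ∀ h < 2 * n, T (h % 2) = true → 1 ≤ v (ξ h) → a h = v (ξ h) := by
    intro h hh hT h1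
    obtain ⟨h2, h3⟩ := hψ h hh hT
    rw [haT h hh hT, max_eq_left]
    rw [h3]
    exact (inv_le_one_of_one_le₀ h1).trans h1
  have hlt : ∀ h < 2 * n, T (h % 2) = true → v (ξ h) < 1 → a h = v (ψ h) ∧ 1 ≤ v (ψ h) := by
    intro h hh hT h1
    obtain ⟨h2, h3⟩ := hψ h hh hT
    have h4 : 1 ≤ v (ψ h) := by
      rw [h3]
      exact (one_le_inv₀ h2).2 h1.le
    refine ⟨?_, h4⟩
    rw [haT h hh hT, max_eq_right (h1.le.trans h4)]
  have hG1 : ∀ h, 1 ≤ G h := by
    intro h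
    rw [hG]
    split_ifs
    · rw [Real.one_le_sqrt]
      exact hM1 _
    · exact le_rfl
  have hGk : ∀ h < 2 * n, T (h % 2) = true →
      v (ξ h - 1) ≤ cst v 2 * max 1 (v (ξ h)) / G h := by
    intro h hh hT
    have h1 := keyf v (ξ h) ((hPt h (by omega)).1 hT).2.1
    rw [le_div_iff₀ (lt_of_lt_of_le one_pos (hG1 h)), hG, if_pos hT]
    unfold zeT
    rw [if_pos hT]
    exact h1
  have hlamT : ∀ h, T (h % 2) = true → (lam h = true ↔ v (ξ h) < 1) := by
    intro h hT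
    rw [hlam, if_pos hT, decide_eq_true_iff]
  have hone_a : ∀ h < 2 * n + 2, 1 ≤ a h := by
    intro h hh
    by_cases hT : T (h % 2) = true ∧ h < 2 * n
    · rcases lt_or_ge (v (ξ h)) 1 with h1 | h1
      · obtain ⟨h2, h3⟩ := hlt h hT.2 hT.1 h1
        rw [h2]
        exact h3
      · rw [hge h hT.2 hT.1 h1]
        exact h1
    · rw [ha, if_neg hT]
      exact one_le_mul_of_one_le_of_one_le hb' (hM1 _)
  refine ⟨a, G, L, lam, ⟨?_, hone_a, fun h _ => hG1 h, ?_, ?_, ?_, ?_, ?_⟩, ?_, ?_, ?_, ?_, ?_⟩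
  · -- one_b
    exact one_le_mul_of_one_le_of_one_le (one_le_pow₀ hb') hc
  · -- ref
    intro i hi
    rw [haR i]
    rcases hTi : T ((2 * n + i) % 2) with _ | _
    · exact ((hN (2 * n + i) (by omega)).2 hTi).1
    · exact NF.mono _ _ _ ((hN (2 * n + i) (by omega)).1 hTi).1
        (mul_le_mul_of_nonneg_left (hMv _) hb0)
  · -- ellX
    intro h hh hT
    rw [haE h hT]
    exact ((hN h (by omega)).2 hT).1
  · -- ellP
    intro h hh hT
    rw [haE h hT]
    refine NF.mono _ _ _ ((hN h hh).2 hT).2 ?_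
    have h1 : 0 ≤ Mv v (ξ h) ^ 2 := by positivity
    have h2 : b' ≤ b' ^ 2 * cst v 2 * b' ^ 2 := by
      have h3 : 1 ≤ b' ^ 2 * cst v 2 * b' := one_le_mul_of_one_le_of_one_le
        (one_le_mul_of_one_le_of_one_le (one_le_pow₀ hb') hc) hb'
      nlinarith
    calc b' * Mv v (ξ h) ^ 2 ≤ (b' ^ 2 * cst v 2 * b' ^ 2) * Mv v (ξ h) ^ 2 :=
          mul_le_mul_of_nonneg_right h2 h1
      _ = b' ^ 2 * cst v 2 * (b' * Mv v (ξ h)) ^ 2 := by ring
  · -- gmF
    intro h hh hT hl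
    have h1 : 1 ≤ v (ξ h) := by
      by_contra hcon
      rw [not_le] at hcon
      rw [(hlamT h hT).2 hcon] at hl
      exact absurd hl (by decide)
    have h2 := hge h hh hT h1
    have hLh : L h = b' * max (v (ξ (2 * n + h % 2))) (v (ξ h) ^ (4 ^ e (h / 2))) := by
      rw [hL, if_pos hT, if_neg (not_lt.2 h1)]
    refine ⟨?_, ?_, ?_⟩
    · refine NF.mono _ _ _ ((hN h (by omega)).1 hT).2.2 ?_
      have h3 := hGk h hh hT
      rw [max_eq_right h1] at h3
      rw [h2]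
      calc b' * v (ξ h - 1) ≤ b' ^ 2 * (cst v 2 * v (ξ h) / G h) :=
            mul_le_mul hbb h3 (v.nonneg _) (by positivity)
        _ = b' ^ 2 * cst v 2 * v (ξ h) / G h := by ring
    · have h3 := ((hN (2 * n + h % 2) (hltr h)).1 (by rw [hmod]; exact hT)).1
      refine NF.mono _ _ _ h3 ?_
      rw [hLh]
      exact mul_le_mul_of_nonneg_left (le_max_left _ _) hb0
    · rw [hLh, h2]
      refine (le_max_right (v (ξ (2 * n + h % 2))) _).trans ?_
      refine le_mul_of_one_le_left ?_ hb'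
      exact le_max_of_le_left (v.nonneg _)
  · -- gmT
    intro h hh hT hl
    have h1 : v (ξ h) < 1 := (hlamT h hT).1 hl
    obtain ⟨h2, h3⟩ := hlt h hh hT h1
    have hLh : L h = b' * max 1 (v (ξ (2 * n + h % 2)) * v (ψ h) ^ (4 ^ e (h / 2))) := by
      rw [hL, if_pos hT, if_pos h1]
    refine ⟨?_, ?_, ?_⟩
    · have h4 : Ψ h - 1 = algebraMap K (MvPowerSeries σ K) (-1) * ((X h - 1) * Ψ h) := by
        have h5 := (hOn h (by omega)).1 hT
        rw [map_neg, map_one]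
        linear_combination h5
      rw [h4]
      obtain ⟨-, h6, h7⟩ := (hN h (by omega)).1 hT
      refine NF.mono _ _ _ (NF.mul _ _ _ _ (NF.const (-1)) (NF.mul _ _ _ _ h7 h6)) ?_
      have h8 := hGk h hh hT
      rw [max_eq_left h1.le] at h8
      rw [v.map_neg, v.map_one, one_mul, h2]
      calc b' * v (ξ h - 1) * (b' * v (ψ h)) = b' ^ 2 * v (ψ h) * v (ξ h - 1) := by ring
        _ ≤ b' ^ 2 * v (ψ h) * (cst v 2 * 1 / G h) :=
            mul_le_mul_of_nonneg_left h8 (mul_nonneg (by positivity) (v.nonneg _))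
        _ = b' ^ 2 * cst v 2 * v (ψ h) / G h := by ring
    · have h4 := ((hN (2 * n + h % 2) (hltr h)).1 (by rw [hmod]; exact hT)).1
      refine NF.mono _ _ _ h4 ?_
      rw [hLh, h2, le_div_iff₀ (by positivity)]
      rw [mul_assoc]
      exact mul_le_mul_of_nonneg_left (le_max_right _ _) hb0
    · rw [hLh]
      exact one_le_mul_of_one_le_of_one_le hb' (le_max_left _ _)
  · intro h _ hT
    exact haE h hT
  · intro i _
    exact haR i
  · intro h _ hT
    rw [hlam, if_neg]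
    rw [hT]
    decide
  · intro h _ hT
    rw [hG, if_pos hT, Real.sq_sqrt]
    exact zero_le_one.trans (hM1 _)
  · intro h hh hT M
    have hq : 1 ≤ 4 ^ e (h / 2) := Nat.one_le_pow _ _ (by norm_num)
    obtain ⟨q, hq'⟩ : ∃ q, 4 ^ e (h / 2) = q + 1 := ⟨4 ^ e (h / 2) - 1, by omega⟩
    rcases lt_or_ge (v (ξ h)) 1 with h1 | h1
    · obtain ⟨h2, h3⟩ := hlt h hh hT h1
      obtain ⟨h4, h5⟩ := hψ h hh hT
      have hLh : L h = b' * max 1 (v (ξ (2 * n + h % 2)) * v (ψ h) ^ (4 ^ e (h / 2))) := by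
        rw [hL, if_pos hT, if_pos h1]
      rw [if_pos ((hlamT h hT).2 h1), hLh, h2, hq', map_pow]
      have h6 : v (ξ h) ^ (q + 1) * v (ψ h) ^ (q + 1) = 1 := by
        rw [← mul_pow, h5, mul_inv_cancel₀ h4.ne', one_pow]
      have h7 : max 1 (v (ξ (2 * n + h % 2)) * v (ψ h) ^ (q + 1)) =
          max (v (ξ (2 * n + h % 2))) (v (ξ h) ^ (q + 1)) * v (ψ h) ^ (q + 1) := by
        rw [max_mul_of_nonneg _ _ (by positivity), h6, max_comm]
      have h8 : (q + 1) * (M + 1) - 1 = (q + 1) * M + q := by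
        rw [Nat.mul_succ]
        omega
      rw [h7, h8, Nat.add_sub_cancel, pow_add (v (ψ h)) ((q + 1) * M) q, pow_mul (v (ψ h)) (q + 1) M,
        mul_pow, mul_pow]
      have h9 : 1 ≤ Mv v (ξ h) ^ (q + 1) := one_le_pow₀ (hM1 _)
      have h10 : 0 ≤ b' ^ M * (max (v (ξ (2 * n + h % 2))) (v (ξ h) ^ (q + 1)) ^ M) *
          ((v (ψ h) ^ (q + 1)) ^ M * v (ψ h) ^ q) := by positivity
      calc v (ψ h) ^ q * (b' ^ M * (max (v (ξ (2 * n + h % 2))) (v (ξ h) ^ (q + 1)) ^ M *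
            (v (ψ h) ^ (q + 1)) ^ M))
          = (b' ^ M * (max (v (ξ (2 * n + h % 2))) (v (ξ h) ^ (q + 1)) ^ M) *
          ((v (ψ h) ^ (q + 1)) ^ M * v (ψ h) ^ q)) * 1 := by ring
        _ ≤ (b' ^ M * (max (v (ξ (2 * n + h % 2))) (v (ξ h) ^ (q + 1)) ^ M) *
          ((v (ψ h) ^ (q + 1)) ^ M * v (ψ h) ^ q)) * Mv v (ξ h) ^ (q + 1) :=
            mul_le_mul_of_nonneg_left h9 h10
        _ = _ := by ring
    · have h2 := hge h hh hT h1
      have hLh : L h = b' * max (v (ξ (2 * n + h % 2))) (v (ξ h) ^ (4 ^ e (h / 2))) := by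
        rw [hL, if_pos hT, if_neg (not_lt.2 h1)]
      rw [if_neg (fun hcon => absurd ((hlamT h hT).1 hcon) (not_lt.2 h1)), hLh, h2, hq', map_pow,
        Nat.add_sub_cancel, mul_pow, mul_one]
      have h3 : v (ξ h) ^ q ≤ Mv v (ξ h) ^ (q + 1) :=
        (pow_le_pow_left₀ (v.nonneg _) (hMv _) q).trans
          (pow_le_pow_right₀ (hM1 _) (Nat.le_succ q))
      have h4 : 0 ≤ b' ^ M * max (v (ξ (2 * n + h % 2))) (v (ξ h) ^ (q + 1)) ^ M := by positivity
      calc v (ξ h) ^ q * (b' ^ M * max (v (ξ (2 * n + h % 2))) (v (ξ h) ^ (q + 1)) ^ M)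
          = (b' ^ M * max (v (ξ (2 * n + h % 2))) (v (ξ h) ^ (q + 1)) ^ M) * v (ξ h) ^ q := by ring
        _ ≤ (b' ^ M * max (v (ξ (2 * n + h % 2))) (v (ξ h) ^ (q + 1)) ^ M) *
            Mv v (ξ h) ^ (q + 1) := mul_le_mul_of_nonneg_left h3 h4
        _ = _ := by ring

end Pool.Agent.Helper31.SG2
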